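import Pool.Agent.Y446.Doyle.Main

/-!
Every locally univalent circle packing for the hexagonal complex is a regular hexagonal packing or
a Doyle spiral.
-/

namespace Pool.Agent.Results.MP_5725d1_gt.DoyleSpirals

/-- The six neighbours of the origin of the hexagonal lattice, `1, ω, ω², -1, -ω, -ω²` with
`ω = exp (iπ/3)`, in cyclic order and in the basis `1, ω` (indices modulo six). -/
def dir : Fin 6 → ℤ × ℤ := ![(1, 0), (0, 1), (-1, 1), (-1, 0), (0, -1), (1, -1)]

/-- The angle at the centre of the circle of radius `a` in the triangle with side lengths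
`a + b`, `a + c`, `b + c` (law of cosines). -/
noncomputable def angle (a b c : ℝ) : ℝ :=
  Real.arccos (((a + b) ^ 2 + (a + c) ^ 2 - (b + c) ^ 2) / (2 * (a + b) * (a + c)))

/-- `R` is a packing label: positive radii with all angle sums equal to `2π`. -/
def IsPackingLabel (R : ℤ × ℤ → ℝ) : Prop :=
  (∀ v, 0 < R v) ∧
  ∀ v, ∑ k : Fin 6, angle (R v) (R (v + dir k)) (R (v + dir (k + 1))) = 2 * Real.pi

/-- The circles with centres `z v` and radii `R v` form a circle packing for the hexagonal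
complex: `R` is a packing label, adjacent circles are externally tangent, and every face is
positively oriented. -/
def IsCirclePacking (R : ℤ × ℤ → ℝ) (z : ℤ × ℤ → ℂ) : Prop :=
  IsPackingLabel R ∧
  (∀ v k, dist (z v) (z (v + dir k)) = R v + R (v + dir k)) ∧
  ∀ v k, 0 < ((starRingEnd ℂ) (z (v + dir k) - z v) * (z (v + dir (k + 1)) - z v)).im

/-- The seven vertices of the flower at `v`. -/
def flower (v : ℤ × ℤ) : Set (ℤ × ℤ) := insert v (Set.range fun k => v + dir k)

/-- Local univalence: the seven circles of every flower have pairwise disjoint interiors. -/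
def LocallyUnivalent (R : ℤ × ℤ → ℝ) (z : ℤ × ℤ → ℂ) : Prop :=
  ∀ v, (flower v).PairwiseDisjoint fun u => Metric.ball (z u) (R u)

/-- The label of a locally univalent circle packing for the hexagonal complex has the form
`R (n, m) = c a ^ n b ^ m`. -/
theorem result (R : ℤ × ℤ → ℝ) (z : ℤ × ℤ → ℂ) (hp : IsCirclePacking R z)
    (hu : LocallyUnivalent R z) :
    ∃ a b c : ℝ, 0 < a ∧ 0 < b ∧ 0 < c ∧ ∀ n m : ℤ, R (n, m) = c * a ^ n * b ^ m := by
  obtain ⟨⟨hpos, hsum⟩, htan, hori⟩ := hp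
  have h : Pool.Agent.Y446.Doyle.Packing R z :=
    { pos := hpos
      sum := hsum
      tan := htan
      ori := hori
      uni := by
        intro v k l hkl
        have h1 : v + dir k ∈ flower v := Set.mem_insert_of_mem _ ⟨k, rfl⟩
        have h2 : v + dir l ∈ flower v := Set.mem_insert_of_mem _ ⟨l, rfl⟩
        have h3 : v + dir k ≠ v + dir l := fun hc =>
          hkl (Pool.Agent.Y446.Doyle.dir_injective (add_left_cancel hc))
        have h4 := hu v h1 h2 h3
        exact (disjoint_ball_ball_iff (hpos _) (hpos _)).1 h4 }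
  exact h.doyle

/-- Sanity check: the regular hexagonal packing satisfies the hypotheses. -/
theorem regular : IsCirclePacking (fun _ => 1)
      (fun v => (⟨2 * (v.1 : ℝ) + (v.2 : ℝ), Real.sqrt 3 * (v.2 : ℝ)⟩ : ℂ)) ∧
    LocallyUnivalent (fun _ => 1)
      (fun v => (⟨2 * (v.1 : ℝ) + (v.2 : ℝ), Real.sqrt 3 * (v.2 : ℝ)⟩ : ℂ)) := by
  have h3 : Real.sqrt 3 ^ 2 = 3 := Real.sq_sqrt (by norm_num)
  have h3' : 0 < Real.sqrt 3 := Real.sqrt_pos.2 (by norm_num)
  have hd : ∀ u v : ℤ × ℤ, dist (⟨2 * (u.1 : ℝ) + (u.2 : ℝ), Real.sqrt 3 * (u.2 : ℝ)⟩ : ℂ)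
      (⟨2 * (v.1 : ℝ) + (v.2 : ℝ), Real.sqrt 3 * (v.2 : ℝ)⟩ : ℂ) =
      2 * Real.sqrt (((v.1 - u.1) ^ 2 + (v.1 - u.1) * (v.2 - u.2) + (v.2 - u.2) ^ 2 : ℤ) : ℝ) := by
    intro u v
    rw [Complex.dist_eq_re_im]
    have : (2 : ℝ) = Real.sqrt (2 ^ 2) := (Real.sqrt_sq (by norm_num)).symm
    rw [this, ← Real.sqrt_mul (by norm_num)]
    rw [← this]
    congr 1
    push_cast
    have e : (Real.sqrt 3 * (u.2 : ℝ) - Real.sqrt 3 * (v.2 : ℝ)) ^ 2 =
        Real.sqrt 3 ^ 2 * ((u.2 : ℝ) - v.2) ^ 2 := by ring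
    show _ = _
    rw [e, h3]
    ring
  refine ⟨⟨⟨fun v => one_pos, fun v => ?_⟩, fun v k => ?_, fun v k => ?_⟩, fun v => ?_⟩
  · have : angle 1 1 1 = Real.pi / 3 := by
      unfold angle
      rw [← Real.arccos_cos (x := Real.pi / 3) (by positivity) (by linarith [Real.pi_pos]),
        Real.cos_pi_div_three]
      norm_num
    simp only [this, Finset.sum_const, Finset.card_univ, Fintype.card_fin, nsmul_eq_mul]
    push_cast
    ring
  · rw [hd]
    have : ((v + dir k).1 - v.1) ^ 2 + ((v + dir k).1 - v.1) * ((v + dir k).2 - v.2) +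
        ((v + dir k).2 - v.2) ^ 2 = 1 := by
      fin_cases k <;> simp [dir]
    rw [this]
    norm_num
  · fin_cases k <;> simp [dir] <;> nlinarith
  · intro p _ q _ hpq
    rw [Function.onFun, disjoint_ball_ball_iff one_pos one_pos, hd]
    have h1 : (1 : ℤ) ≤ (q.1 - p.1) ^ 2 + (q.1 - p.1) * (q.2 - p.2) + (q.2 - p.2) ^ 2 := by
      by_contra hcon
      push Not at hcon
      have h2 : (q.1 - p.1) ^ 2 + (q.1 - p.1) * (q.2 - p.2) + (q.2 - p.2) ^ 2 ≤ 0 := by omega
      have h4 : q.1 - p.1 = 0 := by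
        by_contra h
        have : 0 < (q.1 - p.1) ^ 2 := by positivity
        nlinarith [sq_nonneg (q.1 - p.1 + 2 * (q.2 - p.2))]
      have h5 : q.2 - p.2 = 0 := by
        by_contra h
        have : 0 < (q.2 - p.2) ^ 2 := by positivity
        nlinarith [sq_nonneg (q.2 - p.2 + 2 * (q.1 - p.1))]
      exact hpq (Prod.ext (by omega) (by omega))
    have h2 : (1 : ℝ) ≤ Real.sqrt (((q.1 - p.1) ^ 2 + (q.1 - p.1) * (q.2 - p.2) +
        (q.2 - p.2) ^ 2 : ℤ) : ℝ) := by
      rw [Real.one_le_sqrt]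
      exact_mod_cast h1
    linarith

end Pool.Agent.Results.MP_5725d1_gt.DoyleSpirals
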